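import Pool.Agent.W425.GN.Defs

/-! Project GN, part C2: descending chain condition for modules of small growth. -/

set_option autoImplicit false

namespace Pool.Agent.W479.GN

open Pool.Agent.W425.GN

section
variable {n : ℕ} {E N : Type} [Field E] [AddCommGroup N] [Module E N]

/-- the quotient by an invariant subspace -/
noncomputable def quo (D : WMod n E N) (L : Submodule E N) (h : D.Inv L) : WMod n E (N ⧸ L) where
  x i := L.mapQ L (D.x i) (fun w hw => (h w hw i).1)
  d i := L.mapQ L (D.d i) (fun w hw => (h w hw i).2)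
  xx := by
    intro i j w
    obtain ⟨w, rfl⟩ := L.mkQ_surjective w
    simp only [Submodule.mkQ_apply, Submodule.mapQ_apply]
    rw [D.xx]
  dd := by
    intro i j w
    obtain ⟨w, rfl⟩ := L.mkQ_surjective w
    simp only [Submodule.mkQ_apply, Submodule.mapQ_apply]
    rw [D.dd]
  dx := by
    intro i j w
    obtain ⟨w, rfl⟩ := L.mkQ_surjective w
    simp only [Submodule.mkQ_apply, Submodule.mapQ_apply]
    rw [D.dx]
    split_ifs
    · rw [Submodule.Quotient.mk_add]
    · rw [add_zero, add_zero]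

theorem map_x_le (D : WMod n E N) (L1 : Submodule E N) (h1 : D.Inv L1) (A A' : Submodule E N)
    (i : Fin n) (hA : ∀ w ∈ A, D.x i w ∈ A') :
    (A.map L1.mkQ).map ((quo D L1 h1).x i) ≤ A'.map L1.mkQ := by
  rintro _ ⟨_, ⟨w, hw, rfl⟩, rfl⟩
  exact ⟨D.x i w, hA w hw, rfl⟩

theorem map_d_le (D : WMod n E N) (L1 : Submodule E N) (h1 : D.Inv L1) (A A' : Submodule E N)
    (i : Fin n) (hA : ∀ w ∈ A, D.d i w ∈ A') :
    (A.map L1.mkQ).map ((quo D L1 h1).d i) ≤ A'.map L1.mkQ := by
  rintro _ ⟨_, ⟨w, hw, rfl⟩, rfl⟩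
  exact ⟨D.d i w, hA w hw, rfl⟩

theorem B_le (D : WMod n E N) (Γ : ℕ → Submodule E N) (hΓ : ∀ v, Γ v ≤ Γ (v + 1))
    (hop : ∀ v, ∀ w ∈ Γ v, ∀ i, D.x i w ∈ Γ (v + 1) ∧ D.d i w ∈ Γ (v + 1))
    (L0 L1 : Submodule E N) (h0 : D.Inv L0) (h1 : D.Inv L1) (w : N) (hw : w ∈ L0) (e : ℕ)
    (hwe : w ∈ Γ e) : ∀ j, (quo D L1 h1).B (Submodule.span E {L1.mkQ w}) j ≤
      (L0 ⊓ Γ (e + j)).map L1.mkQ := by
  intro j
  induction j with
  | zero =>
    rw [WMod.B, Submodule.span_singleton_le_iff_mem]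
    exact ⟨w, ⟨hw, hwe⟩, rfl⟩
  | succ j ih =>
    rw [WMod.B]
    refine sup_le (ih.trans (Submodule.map_mono (inf_le_inf_left _ (hΓ _))))
      (sup_le (iSup_le fun i => ?_) (iSup_le fun i => ?_))
    · refine (Submodule.map_mono ih).trans (map_x_le D L1 h1 _ _ i fun u hu => ?_)
      exact ⟨(h0 u hu.1 i).1, (hop _ u hu.2 i).1⟩
    · refine (Submodule.map_mono ih).trans (map_d_le D L1 h1 _ _ i fun u hu => ?_)
      exact ⟨(h0 u hu.1 i).2, (hop _ u hu.2 i).2⟩

theorem finrank_quot (A L1 : Submodule E N) [Module.Finite E A] :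
    Module.finrank E (A.map L1.mkQ) + Module.finrank E (A ⊓ L1 : Submodule E N) =
      Module.finrank E A := by
  have h := LinearMap.finrank_range_add_finrank_ker (L1.mkQ.domRestrict A)
  rw [LinearMap.range_domRestrict] at h
  have e : LinearMap.ker (L1.mkQ.domRestrict A) = L1.comap A.subtype := by
    ext x
    simp [LinearMap.mem_ker, Submodule.Quotient.mk_eq_zero]
  rw [e, ← Submodule.finrank_map_subtype_eq A (L1.comap A.subtype),
    Submodule.map_comap_subtype] at h
  exact h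

end

theorem c2 : TaskC2 := by
  intro hC1 n E N _ _ _ _ D Γ c hΓ hop hfin hdim L hL hInv w hw hwΓ
  by_contra hcon
  push Not at hcon
  obtain ⟨l, hl⟩ : ∃ l, l = (2 * n).factorial * c ^ 2 * 6 ^ n + 1 := ⟨_, rfl⟩
  choose vv hvv using hwΓ
  have hmono : Monotone Γ := monotone_nat_of_le_succ hΓ
  obtain ⟨e, he⟩ : ∃ e, ∀ k < l, w k ∈ Γ e := by
    refine ⟨(Finset.range l).sup vv, fun k hk => hmono ?_ (hvv k)⟩
    exact Finset.le_sup (f := vv) (Finset.mem_range.2 hk)
  have hfinI : ∀ (A : Submodule E N) (m : ℕ), Module.Finite E (A ⊓ Γ m : Submodule E N) := by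
    intro A m
    have := hfin m
    exact Submodule.finiteDimensional_of_le (inf_le_right : A ⊓ Γ m ≤ Γ m)
  obtain ⟨δ, hδ⟩ : ∃ δ : ℕ → ℕ → ℕ, δ = fun k j => Module.finrank E
      ((quo D (L (k + 1)) (hInv (k + 1))).B (Submodule.span E {(L (k + 1)).mkQ (w k)}) j) :=
    ⟨_, rfl⟩
  -- comparison with the image
  have hδ1 : ∀ k < l, ∀ j, δ k j ≤ Module.finrank E ((L k ⊓ Γ (e + j)).map (L (k + 1)).mkQ) := by
    intro k hk j
    rw [hδ]
    have := hfinI (L k) (e + j)
    exact Submodule.finrank_mono (B_le D Γ hΓ hop (L k) (L (k + 1)) (hInv k) (hInv (k + 1)) (w k)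
      (hw k) e (he k hk) j)
  have hstep : ∀ k < l, ∀ j, δ k j + Module.finrank E (L (k + 1) ⊓ Γ (e + j) : Submodule E N) ≤
      Module.finrank E (L k ⊓ Γ (e + j) : Submodule E N) := by
    intro k hk j
    have := hfinI (L k) (e + j)
    have h1 := finrank_quot (L k ⊓ Γ (e + j)) (L (k + 1))
    have e1 : (L k ⊓ Γ (e + j)) ⊓ L (k + 1) = L (k + 1) ⊓ Γ (e + j) := by
      rw [inf_right_comm, inf_eq_right.2 (hL k)]
    rw [e1] at h1
    have h2 := hδ1 k hk j
    omega
  have hsum : ∀ j K, K ≤ l → ∑ k ∈ Finset.range K, δ k j +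
      Module.finrank E (L K ⊓ Γ (e + j) : Submodule E N) ≤ Module.finrank E (Γ (e + j)) := by
    intro j K
    induction K with
    | zero =>
      intro _
      have := hfin (e + j)
      rw [Finset.sum_range_zero, zero_add]
      exact Submodule.finrank_mono inf_le_right
    | succ K ih =>
      intro hK
      rw [Finset.sum_range_succ]
      have h1 := ih (by omega)
      have h2 := hstep K (by omega) j
      omega
  have hδ2 : ∀ k < l, ∀ j, δ k j ≤ c * (e + j + 1) ^ n := by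
    intro k hk j
    have h1 := hstep k hk j
    have := hfin (e + j)
    have h2 : Module.finrank E (L k ⊓ Γ (e + j) : Submodule E N) ≤ Module.finrank E (Γ (e + j)) :=
      Submodule.finrank_mono inf_le_right
    have h3 := hdim (e + j)
    omega
  have hne : ∀ k, (L (k + 1)).mkQ (w k) ≠ 0 := by
    intro k h
    rw [Submodule.mkQ_apply, Submodule.Quotient.mk_eq_zero] at h
    exact hcon k h
  have hb : ∀ k, ∀ j, (j + 2 * n).choose (2 * n) ≤ δ k j * δ k (2 * j) := by
    intro k j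
    rw [hδ]
    exact hC1 (quo D (L (k + 1)) (hInv (k + 1))) ((L (k + 1)).mkQ (w k)) (hne k) j
  obtain ⟨v, hv⟩ : ∃ v, v = e + 1 := ⟨_, rfl⟩
  have hS : ∑ k ∈ Finset.range l, δ k v ≤ c * (2 * v) ^ n := by
    have h1 := hsum v l le_rfl
    have h2 := hdim (e + v)
    have h3 : e + v + 1 = 2 * v := by omega
    rw [h3] at h2
    omega
  have hT : l * (v + 2 * n).choose (2 * n) ≤ (c * (2 * v) ^ n) * (c * (3 * v) ^ n) := by
    calc l * (v + 2 * n).choose (2 * n)
        = ∑ _k ∈ Finset.range l, (v + 2 * n).choose (2 * n) := by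
          rw [Finset.sum_const, Finset.card_range, smul_eq_mul]
      _ ≤ ∑ k ∈ Finset.range l, δ k v * (c * (3 * v) ^ n) := by
          refine Finset.sum_le_sum fun k hk => (hb k v).trans (Nat.mul_le_mul_left _ ?_)
          have h1 := hδ2 k (Finset.mem_range.1 hk) (2 * v)
          have h3 : e + 2 * v + 1 = 3 * v := by omega
          rwa [h3] at h1
      _ = (∑ k ∈ Finset.range l, δ k v) * (c * (3 * v) ^ n) := by rw [Finset.sum_mul]
      _ ≤ _ := Nat.mul_le_mul_right _ hS
  have hfac : v ^ (2 * n) ≤ (2 * n).factorial * (v + 2 * n).choose (2 * n) := by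
    rw [← Nat.ascFactorial_eq_factorial_mul_choose]
    exact (Nat.pow_le_pow_left (Nat.le_succ v) _).trans (Nat.pow_succ_le_ascFactorial _ _)
  have hfinal : l * v ^ (2 * n) ≤ ((2 * n).factorial * c ^ 2 * 6 ^ n) * v ^ (2 * n) := by
    calc l * v ^ (2 * n) ≤ l * ((2 * n).factorial * (v + 2 * n).choose (2 * n)) :=
          Nat.mul_le_mul_left _ hfac
      _ = (2 * n).factorial * (l * (v + 2 * n).choose (2 * n)) := by ring
      _ ≤ (2 * n).factorial * ((c * (2 * v) ^ n) * (c * (3 * v) ^ n)) :=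
          Nat.mul_le_mul_left _ hT
      _ = ((2 * n).factorial * c ^ 2 * 6 ^ n) * v ^ (2 * n) := by
          have h6 : (6 : ℕ) ^ n = 2 ^ n * 3 ^ n := by rw [← mul_pow]; norm_num
          rw [h6, mul_pow, mul_pow, two_mul n, pow_add]
          ring
  have hvpos : 0 < v ^ (2 * n) := pow_pos (by omega) _
  have := Nat.le_of_mul_le_mul_right hfinal hvpos
  omega

end Pool.Agent.W479.GN
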